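import Pool.Agent.Helper849.TA.Stmts

set_option autoImplicit false

/-!
Project TILTAPPROX (MP_db3ab1_ag), tasks NS and LIP.
-/

namespace Pool.Agent.Helper849.TA

open MvPolynomial

/-- A polynomial is bounded on the unit polydisc. -/
theorem bdd_eval (p : ℕ) [Fact p.Prime] (M : ℕ) (Q : MvPolynomial (Fin M) (PadicComplex p)) :
    ∃ C : ℝ, 0 < C ∧ ∀ x : Fin M → PadicComplex p, (∀ i, ‖x i‖ ≤ 1) → ‖eval x Q‖ ≤ C := by
  refine ⟨1 + ∑ m ∈ Q.support, ‖coeff m Q‖, by positivity, ?_⟩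
  intro x hx
  rw [MvPolynomial.eval_eq']
  have h : ‖∑ m ∈ Q.support, coeff m Q * ∏ i, x i ^ m i‖ ≤ ∑ m ∈ Q.support, ‖coeff m Q‖ := by
    refine norm_sum_le_of_le _ ?_
    intro m _
    rw [norm_mul, norm_prod]
    have h1 : ∏ i, ‖x i ^ m i‖ ≤ 1 := by
      refine Finset.prod_le_one (fun i _ => norm_nonneg _) ?_
      intro i _
      rw [norm_pow]
      exact pow_le_one₀ (norm_nonneg _) (hx i)
    exact mul_le_of_le_one_right (norm_nonneg _) h1
  linarith

theorem taskNS : TaskNS := by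
  intro p _ M s P Q hPQ η hη
  have hQ : Q ∈ (Ideal.span (Set.range P)).radical := by
    rw [← MvPolynomial.vanishingIdeal_zeroLocus_eq_radical (K := PadicComplex p)]
    rw [MvPolynomial.mem_vanishingIdeal_iff]
    intro x hx
    rw [MvPolynomial.mem_zeroLocus_iff] at hx
    have h0 := hPQ x (fun i => by
      have h := hx (P i) (Ideal.subset_span ⟨i, rfl⟩)
      rwa [MvPolynomial.aeval_eq_eval] at h)
    rwa [MvPolynomial.aeval_eq_eval]
  obtain ⟨m, hm⟩ := hQ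
  have hm1 : Q ^ (m + 1) ∈ Ideal.span (Set.range P) := by
    rw [pow_succ]
    exact Ideal.mul_mem_right _ _ hm
  rw [Ideal.mem_span_range_iff_exists_fun] at hm1
  obtain ⟨A, hA⟩ := hm1
  choose C hC0 hC using fun i => bdd_eval p M (A i)
  have hS : 0 < 1 + ∑ i, C i := by
    have : 0 ≤ ∑ i, C i := Finset.sum_nonneg fun i _ => (hC0 i).le
    linarith
  refine ⟨η ^ (m + 1) / (1 + ∑ i, C i), by positivity, ?_⟩
  intro x hx hP
  have h1 : ‖eval x Q‖ ^ (m + 1) ≤ η ^ (m + 1) := by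
    rw [← norm_pow, ← map_pow, ← hA, map_sum]
    have h2 : ‖∑ i, eval x (A i * P i)‖
        ≤ ∑ i, C i * (η ^ (m + 1) / (1 + ∑ i, C i)) := by
      refine norm_sum_le_of_le _ ?_
      intro i _
      rw [map_mul, norm_mul]
      exact mul_le_mul (hC i x hx) (hP i) (norm_nonneg _) (hC0 i).le
    refine h2.trans ?_
    rw [← Finset.sum_mul, ← mul_div_assoc, div_le_iff₀ hS, mul_comm]
    refine mul_le_mul_of_nonneg_left ?_ (by positivity)
    linarith
  exact le_of_pow_le_pow_left₀ (Nat.succ_ne_zero m) hη.le h1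

/-- Task LIP with the hypothesis `0 ≤ δ` (without it the statement fails for `M = 0`). -/
theorem taskLip0 : ∀ (p : ℕ) [Fact p.Prime] (M : ℕ)
    (Q : MvPolynomial (Fin M) (PadicComplex p)),
    ∃ C : ℝ, 0 < C ∧ ∀ (x y : Fin M → PadicComplex p) (δ : ℝ), 0 ≤ δ → (∀ i, ‖x i‖ ≤ 1) →
      (∀ i, ‖y i‖ ≤ 1) → (∀ i, ‖x i - y i‖ ≤ δ) → ‖eval x Q - eval y Q‖ ≤ C * δ := by
  intro p _ M Q
  induction Q using MvPolynomial.induction_on with
  | C a =>
    refine ⟨1, one_pos, ?_⟩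
    intro x y δ hδ _ _ _
    simpa using hδ
  | add f g hf hg =>
    obtain ⟨C1, h1, H1⟩ := hf
    obtain ⟨C2, h2, H2⟩ := hg
    refine ⟨C1 + C2, by positivity, ?_⟩
    intro x y δ hδ hx hy hxy
    have e : eval x (f + g) - eval y (f + g)
        = (eval x f - eval y f) + (eval x g - eval y g) := by
      rw [map_add, map_add]; ring
    rw [e]
    refine (norm_add_le _ _).trans ?_
    have := H1 x y δ hδ hx hy hxy
    have := H2 x y δ hδ hx hy hxy
    linarith
  | mul_X f i hf =>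
    obtain ⟨C1, h1, H1⟩ := hf
    obtain ⟨C2, h2, H2⟩ := bdd_eval p M f
    refine ⟨C1 + C2, by positivity, ?_⟩
    intro x y δ hδ hx hy hxy
    have e : eval x (f * X i) - eval y (f * X i)
        = (eval x f - eval y f) * x i + eval y f * (x i - y i) := by
      rw [map_mul, map_mul, eval_X, eval_X]; ring
    rw [e]
    refine (norm_add_le _ _).trans ?_
    rw [norm_mul, norm_mul]
    have a1 : ‖eval x f - eval y f‖ * ‖x i‖ ≤ (C1 * δ) * 1 :=
      mul_le_mul (H1 x y δ hδ hx hy hxy) (hx i) (norm_nonneg _) (by positivity)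
    have a2 : ‖eval y f‖ * ‖x i - y i‖ ≤ C2 * δ :=
      mul_le_mul (H2 y hy) (hxy i) (norm_nonneg _) h2.le
    linarith

/-- Task LIP for a positive number of variables, exactly as stated. -/
theorem taskLip_pos (p : ℕ) [Fact p.Prime] (M : ℕ) (hM : 0 < M)
    (Q : MvPolynomial (Fin M) (PadicComplex p)) :
    ∃ C : ℝ, 0 < C ∧ ∀ (x y : Fin M → PadicComplex p) (δ : ℝ), (∀ i, ‖x i‖ ≤ 1) →
      (∀ i, ‖y i‖ ≤ 1) → (∀ i, ‖x i - y i‖ ≤ δ) → ‖eval x Q - eval y Q‖ ≤ C * δ := by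
  obtain ⟨C, hC, H⟩ := taskLip0 p M Q
  exact ⟨C, hC, fun x y δ hx hy hxy =>
    H x y δ ((norm_nonneg _).trans (hxy ⟨0, hM⟩)) hx hy hxy⟩

end Pool.Agent.Helper849.TA
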